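import Pool.Agent.Work.MP_0f2eae_al.Main

open Pool.Agent.Work.MP_0f2eae_al

/-- The conjecture fails for `(g, n) = (0, 4)` or for `(g, n) = (0, 7)`. -/
theorem Pool.Agent.Results.MP_0f2eae_al.Disproof.result :
    ∃ n : ℕ, (n = 4 ∨ n = 7) ∧ ¬ Assertion (gen n) (eta (Pi0 n)).range := by
  by_contra h
  refine main ⟨?_, ?_⟩
  · by_contra h4
    exact h ⟨4, Or.inl rfl, h4⟩
  · by_contra h7
    exact h ⟨7, Or.inr rfl, h7⟩
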